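import Pool.Agent.N299.PX.Stm

/-!
Project PX, task SW: strongly purely infinite implies weakly purely infinite.
-/

set_option autoImplicit false

open Filter

noncomputable section

namespace Pool.Agent.N499.PX

open Pool.Agent.N299.PX Pool.Agent.N299.PX.Pub

/-- SW -/
theorem t_SW : S_SW := by
  intro A _ hS
  refine ⟨1, le_rfl, fun a ha _ => ?_⟩
  obtain ⟨y, rfl⟩ := ha
  obtain ⟨D, hD⟩ := hS (Matrix.of fun _ _ => star y * y)
    ⟨Matrix.of fun i _ => if i = 0 then y else 0, by
      ext i j
      simp [Matrix.mul_apply, Matrix.conjTranspose_apply]⟩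
  refine ⟨fun k => Matrix.of fun s p => if s.1 = 0 then star (D k p.1) else 0, ?_⟩
  refine tendsto_pi_nhds.2 fun p => tendsto_pi_nhds.2 fun p' => ?_
  have h := tendsto_pi_nhds.1 (tendsto_pi_nhds.1 hD p.1) p'.1
  have e2 : Matrix.diagonal (fun _ : Fin 2 × Fin 1 => star y * y) p p' =
      Matrix.diagonal (fun i : Fin 2 => (Matrix.of fun _ _ => star y * y :
        Matrix (Fin 2) (Fin 2) A) i i) p.1 p'.1 := by
    rw [Matrix.diagonal_apply, Matrix.diagonal_apply]
    have h1 : p = p' ↔ p.1 = p'.1 := by
      constructor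
      · intro h
        rw [h]
      · intro h
        exact Prod.ext h (Subsingleton.elim _ _)
    simp only [h1, Matrix.of_apply]
  rw [e2]
  refine h.congr fun k => ?_
  have e3 : Matrix.conjTranspose (Matrix.diagonal (D k)) =
      Matrix.diagonal (fun i => star (D k i)) := Matrix.diagonal_conjTranspose _
  rw [e3, Matrix.mul_diagonal, Matrix.diagonal_mul]
  simp [Matrix.mul_apply, Matrix.conjTranspose_apply, Matrix.diagonal_apply, Fintype.sum_prod_type]

end Pool.Agent.N499.PX
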